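import Mathlib

open MeasureTheory Metric Set Filter Topology Complex

namespace Pool.Agent.Morera

/-- uniform approximation of continuous real functions on a circle by real parts of entire
functions -/
lemma exists_entire_approx {u : ℂ → ℝ} (hu : Continuous u) (z₀ : ℂ) {r : ℝ} (hr : 0 < r)
    {ε : ℝ} (hε : 0 < ε) :
    ∃ P : ℂ → ℂ, Differentiable ℂ P ∧ ∀ ζ ∈ sphere z₀ r, |u ζ - (P ζ).re| ≤ ε := by
  have : Fact (0 < 2 * Real.pi) := ⟨by positivity⟩
  -- the submodule of functions of the form P + conj Q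
  let S : Submodule ℂ C(AddCircle (2 * Real.pi), ℂ) :=
    { carrier := {f | ∃ P Q : ℂ → ℂ, Differentiable ℂ P ∧ Differentiable ℂ Q ∧
        ∀ θ : AddCircle (2 * Real.pi), f θ = P (AddCircle.toCircle θ) +
          (starRingEnd ℂ) (Q (AddCircle.toCircle θ))}
      add_mem' := by
        rintro f g ⟨P, Q, hP, hQ, h⟩ ⟨P', Q', hP', hQ', h'⟩
        refine ⟨P + P', Q + Q', hP.add hP', hQ.add hQ', fun θ => ?_⟩
        simp [h θ, h' θ]; ring
      zero_mem' := ⟨0, 0, differentiable_const _, differentiable_const _, fun θ => by simp⟩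
      smul_mem' := by
        rintro c f ⟨P, Q, hP, hQ, h⟩
        refine ⟨fun z => c * P z, fun z => (starRingEnd ℂ c) * Q z, hP.const_mul _,
          hQ.const_mul _, fun θ => ?_⟩
        simp [h θ]; ring }
  have hS : Submodule.span ℂ (Set.range (fourier (T := 2 * Real.pi))) ≤ S := by
    rw [Submodule.span_le]
    rintro _ ⟨n, rfl⟩
    obtain ⟨m, rfl | rfl⟩ := n.eq_nat_or_neg
    · refine ⟨fun z => z ^ m, 0, by fun_prop, differentiable_const _, fun θ => ?_⟩
      simp [fourier_apply, AddCircle.toCircle_nsmul]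
    · refine ⟨0, fun z => z ^ m, differentiable_const _, by fun_prop, fun θ => ?_⟩
      have h1 : ((AddCircle.toCircle θ : ℂ) ^ m)⁻¹ =
          (starRingEnd ℂ) (AddCircle.toCircle θ : ℂ) ^ m := by
        rw [← inv_pow, ← Circle.coe_inv, Circle.coe_inv_eq_conj]
      simpa [fourier_apply, AddCircle.toCircle_nsmul, AddCircle.toCircle_neg] using h1
  have hdense : S.topologicalClosure = ⊤ := by
    rw [eq_top_iff, ← span_fourier_closure_eq_top (T := 2 * Real.pi)]
    exact Submodule.topologicalClosure_mono hS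
  -- the function on the circle
  let v : C(AddCircle (2 * Real.pi), ℂ) :=
    ⟨fun θ => ((u (z₀ + r * (AddCircle.toCircle θ : ℂ)) : ℝ) : ℂ), by
      have := AddCircle.continuous_toCircle (T := 2 * Real.pi)
      fun_prop⟩
  have hv : v ∈ closure (S : Set C(AddCircle (2 * Real.pi), ℂ)) := by
    rw [← Submodule.topologicalClosure_coe, hdense]; trivial
  obtain ⟨f, ⟨P, Q, hP, hQ, hf⟩, hvf⟩ := Metric.mem_closure_iff.mp hv ε hε
  refine ⟨fun ζ => P ((ζ - z₀) / r) + Q ((ζ - z₀) / r), ?_, ?_⟩
  · have h1 : Differentiable ℂ (fun ζ : ℂ => (ζ - z₀) / r) := by fun_prop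
    exact (hP.comp h1).add (hQ.comp h1)
  · intro ζ hζ
    have hr' : (r : ℂ) ≠ 0 := by exact_mod_cast hr.ne'
    have hnorm : ‖(ζ - z₀) / r‖ = 1 := by
      rw [norm_div, ← dist_eq_norm, mem_sphere.mp hζ]
      simp [abs_of_pos hr, hr.ne']
    obtain ⟨θ, hθ⟩ : ∃ θ : AddCircle (2 * Real.pi), (AddCircle.toCircle θ : ℂ) = (ζ - z₀) / r := by
      refine ⟨(((ζ - z₀) / r).arg : AddCircle (2 * Real.pi)), ?_⟩
      rw [AddCircle.toCircle_apply_mk]
      have : (2 * Real.pi / (2 * Real.pi) * ((ζ - z₀) / r).arg) = ((ζ - z₀) / r).arg := by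
        field_simp
      rw [this, Circle.coe_exp]
      conv_rhs => rw [← Complex.norm_mul_exp_arg_mul_I ((ζ - z₀) / r)]
      rw [hnorm]; simp
    have h2 : dist (v θ) (f θ) ≤ dist v f := ContinuousMap.dist_apply_le_dist θ
    have h3 : v θ = ((u ζ : ℝ) : ℂ) := by
      have : z₀ + r * (AddCircle.toCircle θ : ℂ) = ζ := by
        rw [hθ]; field_simp; ring
      show ((u (z₀ + r * (AddCircle.toCircle θ : ℂ)) : ℝ) : ℂ) = _
      rw [this]
    rw [h3, hf θ, hθ, dist_eq_norm] at h2
    have h4 : u ζ - (P ((ζ - z₀) / r) + Q ((ζ - z₀) / r)).re =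
        (((u ζ : ℝ) : ℂ) - (P ((ζ - z₀) / r) + (starRingEnd ℂ) (Q ((ζ - z₀) / r)))).re := by
      simp
    rw [h4]
    exact (Complex.abs_re_le_norm _).trans (h2.trans hvf.le)

lemma circleAverage_re_entire {P : ℂ → ℂ} (hP : Differentiable ℂ P) (c : ℂ) (s : ℝ) :
    Real.circleAverage (fun ζ => (P ζ).re) c s = (P c).re := by
  have hci : CircleIntegrable P c s := hP.continuous.continuousOn.circleIntegrable'
  have h1 := ContinuousLinearMap.circleAverage_comp_comm (Complex.reCLM) hci
  have h2 : Real.circleAverage P c s = P c :=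
    DiffContOnCl.circleAverage (hP.diffContOnCl)
  rw [h2] at h1
  exact h1

lemma max_principle {u : ℂ → ℝ} (hu : Continuous u) {U : Set ℂ}
    (h : ∀ z ∈ U, Tendsto (fun r : ℝ => (Real.circleAverage u z r - u z) / r ^ 2)
      (𝓝[>] 0) (𝓝 0))
    {z₀ : ℂ} {r : ℝ} (hr : 0 < r) (hsub : closedBall z₀ r ⊆ U) {P : ℂ → ℂ}
    (hP : Differentiable ℂ P) {ε : ℝ} (hPu : ∀ ζ ∈ sphere z₀ r, u ζ - (P ζ).re ≤ ε) :
    ∀ ζ ∈ closedBall z₀ r, u ζ - (P ζ).re ≤ ε := by
  intro ζ hζ
  -- enough: for every δ > 0, ≤ ε + δ r ^ 2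
  suffices hδ : ∀ δ : ℝ, 0 < δ → u ζ - (P ζ).re ≤ ε + δ * r ^ 2 by
    by_contra hcon
    push Not at hcon
    have hpos : 0 < (u ζ - (P ζ).re - ε) / (2 * r ^ 2) := by
      apply div_pos (by linarith) (by positivity)
    have := hδ _ hpos
    have h2 : (u ζ - (P ζ).re - ε) / (2 * r ^ 2) * r ^ 2 = (u ζ - (P ζ).re - ε) / 2 := by
      field_simp
    rw [h2] at this
    linarith
  intro δ hδ
  set v : ℂ → ℝ := fun w => u w - (P w).re + δ * ‖w - z₀‖ ^ 2 with hv
  have hvc : Continuous v := by
    have := hP.continuous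
    rw [hv]; fun_prop
  obtain ⟨p, hp, hmax⟩ := (isCompact_closedBall z₀ r).exists_isMaxOn
    (nonempty_closedBall.mpr hr.le) hvc.continuousOn
  have hvp : v p ≤ ε + δ * r ^ 2 := by
    rcases eq_or_lt_of_le (mem_closedBall.mp hp) with heq | hlt
    · have h1 := hPu p (mem_sphere.mpr heq)
      have h2 : ‖p - z₀‖ = r := by rw [← dist_eq_norm]; exact heq
      simp only [hv, h2]
      linarith
    · exfalso
      have hball : p ∈ ball z₀ r := mem_ball.mpr hlt
      -- eventually circleAverage v p s ≤ v p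
      have hev : ∀ᶠ s : ℝ in 𝓝[>] 0, closedBall p s ⊆ closedBall z₀ r := by
        have : ∀ᶠ s : ℝ in 𝓝 0, closedBall p s ⊆ ball z₀ r := by
          have hd : 0 < r - dist p z₀ := by linarith
          filter_upwards [gt_mem_nhds hd] with s hs
          exact closedBall_subset_ball' (by linarith)
        filter_upwards [nhdsWithin_le_nhds this] with s hs
        exact hs.trans ball_subset_closedBall
      have hlim := h p (hsub hp)
      have hev2 : ∀ᶠ s : ℝ in 𝓝[>] 0, -δ < (Real.circleAverage u p s - u p) / s ^ 2 :=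
        hlim.eventually (lt_mem_nhds (by linarith))
      obtain ⟨s, hs1, hs2, hs3⟩ := (hev.and (hev2.and self_mem_nhdsWithin)).exists
      have hspos : 0 < s := hs3
      -- the quadratic as real part of an entire function on the sphere
      set Q : ℂ → ℂ := fun w => ((‖p - z₀‖ ^ 2 + s ^ 2 : ℝ) : ℂ) +
        2 * (starRingEnd ℂ) (p - z₀) * (w - p) with hQ
      have hQd : Differentiable ℂ Q := by rw [hQ]; fun_prop
      have hQs : ∀ w ∈ sphere p |s|, ‖w - z₀‖ ^ 2 = (Q w).re := by
        intro w hw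
        have hws : ‖w - p‖ ^ 2 = s ^ 2 := by
          rw [← dist_eq_norm, mem_sphere.mp hw, sq_abs]
        have e : w - z₀ = (p - z₀) + (w - p) := by ring
        rw [e, ← Complex.normSq_eq_norm_sq, Complex.normSq_add, Complex.normSq_eq_norm_sq,
          Complex.normSq_eq_norm_sq, hws]
        simp only [hQ, add_re, mul_re, mul_im, ofReal_re, conj_re, conj_im, sub_re, sub_im, re_ofNat,
          im_ofNat]
        ring
      have hW : Differentiable ℂ (fun w => P w - δ * Q w) := by fun_prop
      have hcu : CircleIntegrable u p s := hu.continuousOn.circleIntegrable'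
      have hcW : CircleIntegrable (fun w => (P w - δ * Q w).re) p s :=
        (Complex.continuous_re.comp hW.continuous).continuousOn.circleIntegrable'
      have hcv : CircleIntegrable v p s := hvc.continuousOn.circleIntegrable'
      have hav : Real.circleAverage v p s =
          Real.circleAverage u p s - (P p - δ * Q p).re := by
        rw [← circleAverage_re_entire hW p s, ← Real.circleAverage_fun_sub hcu hcW]
        apply Real.circleAverage_congr_sphere
        intro w hw
        simp only [hv]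
        rw [hQs w hw]
        simp
        ring
      have hQp : (Q p).re = ‖p - z₀‖ ^ 2 + s ^ 2 := by
        simp [hQ, ← ofReal_pow]
      have hle : Real.circleAverage v p s ≤ v p := by
        apply Real.circleAverage_mono_on_of_le_circle hcv
        intro w hw
        apply hmax
        apply hs1
        rw [abs_of_pos hspos] at hw
        exact sphere_subset_closedBall hw
      rw [hav] at hle
      have e2 : (P p - δ * Q p).re = (P p).re - δ * (‖p - z₀‖ ^ 2 + s ^ 2) := by
        rw [sub_re, re_ofReal_mul, hQp]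
      rw [e2] at hle
      simp only [hv] at hle
      rw [lt_div_iff₀ (by positivity)] at hs2
      nlinarith
  have h1 : v ζ ≤ v p := hmax hζ
  have h2 : 0 ≤ δ * ‖ζ - z₀‖ ^ 2 := by positivity
  simp only [hv] at h1
  simp only [hv] at hvp
  linarith

/-- Blaschke-Privalov. -/
theorem blaschke_privalov {u : ℂ → ℝ} (hu : Continuous u) {U : Set ℂ}
    (h : ∀ z ∈ U, Tendsto (fun r : ℝ => (Real.circleAverage u z r - u z) / r ^ 2)
      (𝓝[>] 0) (𝓝 0))
    {z₀ : ℂ} {r : ℝ} (hr : 0 < r) (hsub : closedBall z₀ r ⊆ U) :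
    Real.circleAverage u z₀ r = u z₀ := by
  have h' : ∀ z ∈ U, Tendsto (fun r : ℝ => (Real.circleAverage (-u) z r - (-u) z) / r ^ 2)
      (𝓝[>] 0) (𝓝 0) := by
    intro z hz
    have h1 := (h z hz).neg
    rw [neg_zero] at h1
    refine h1.congr (fun s => ?_)
    have e : Real.circleAverage (-u) z s = - Real.circleAverage u z s := by
      have := Real.circleAverage_smul (f := u) (c := z) (R := s) (a := (-1 : ℝ))
      simpa using this
    rw [e]
    simp only [Pi.neg_apply]
    ring
  have key : ∀ ε : ℝ, 0 < ε → |Real.circleAverage u z₀ r - u z₀| ≤ 2 * ε := by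
    intro ε hε
    obtain ⟨P, hP, hPu⟩ := exists_entire_approx hu z₀ hr hε
    have h1 := max_principle hu h hr hsub hP (fun ζ hζ => (abs_le.mp (hPu ζ hζ)).2)
    have h2 := max_principle hu.neg h' hr hsub hP.neg (ε := ε) (fun ζ hζ => by
      have := (abs_le.mp (hPu ζ hζ)).1
      simp only [Pi.neg_apply, neg_re]
      linarith)
    have hc : z₀ ∈ closedBall z₀ r := mem_closedBall_self hr.le
    have h1c := h1 z₀ hc
    have h2c := h2 z₀ hc
    simp only [Pi.neg_apply, neg_re] at h2c
    have hcu : CircleIntegrable u z₀ r := hu.continuousOn.circleIntegrable'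
    have hcP : CircleIntegrable (fun ζ => (P ζ).re) z₀ r :=
      (Complex.continuous_re.comp hP.continuous).continuousOn.circleIntegrable'
    have h3 : Real.circleAverage (fun ζ => u ζ - (P ζ).re) z₀ r ≤ ε := by
      apply Real.circleAverage_mono_on_of_le_circle (hcu.sub hcP)
      intro w hw
      rw [abs_of_pos hr] at hw
      exact (abs_le.mp (hPu w hw)).2
    have h4 : Real.circleAverage (fun ζ => (P ζ).re - u ζ) z₀ r ≤ ε := by
      apply Real.circleAverage_mono_on_of_le_circle (hcP.sub hcu)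
      intro w hw
      rw [abs_of_pos hr] at hw
      have := (abs_le.mp (hPu w hw)).1
      show (P w).re - u w ≤ ε
      linarith
    rw [Real.circleAverage_fun_sub hcu hcP, circleAverage_re_entire hP] at h3
    rw [Real.circleAverage_fun_sub hcP hcu, circleAverage_re_entire hP] at h4
    rw [abs_le]
    constructor <;> linarith
  have h0 : |Real.circleAverage u z₀ r - u z₀| ≤ 0 := by
    apply le_of_forall_pos_le_add
    intro ε hε
    have := key (ε / 2) (by linarith)
    linarith
  have := abs_nonpos_iff.mp h0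
  linarith

end Pool.Agent.Morera
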