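import Mathlib

open MeasureTheory Metric Set Filter Topology Complex

namespace Pool.Agent.Morera

/-- The kernel `1 / conj t`. -/
noncomputable def ker (t : ℂ) : ℂ := (starRingEnd ℂ t)⁻¹

lemma measurable_ker : Measurable ker := by
  unfold ker
  exact (Complex.continuous_conj.measurable).inv

lemma norm_ker (t : ℂ) : ‖ker t‖ = ‖t‖⁻¹ := by
  simp [ker]

lemma locInt_ker : LocallyIntegrable ker volume := by
  refine locallyIntegrable_of_norm_le_rpow (C := 1) (α := 1) ?_ ?_ ?_ ?_
  · simp
  · simp
  · refine Eventually.of_forall (fun x => ?_)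
    simp [norm_ker, Real.rpow_neg_one]
  · exact measurable_ker.aestronglyMeasurable

lemma locInt_norm_ker : LocallyIntegrable (fun t => ‖ker t‖) volume := by
  intro x
  obtain ⟨s, hs, h⟩ := locInt_ker x
  exact ⟨s, hs, h.norm⟩

/-- conj-Cauchy transform -/
noncomputable def trans (g : ℂ → ℂ) (z : ℂ) : ℂ := ∫ t : ℂ, ker t * g (z - t)

lemma trans_eq_conv (g : ℂ → ℂ) :
    trans g = convolution ker g (ContinuousLinearMap.mul ℝ ℂ) volume := by
  ext z
  simp [trans, convolution_def]

lemma continuous_trans {g : ℂ → ℂ} (hg : Continuous g) (hc : HasCompactSupport g) :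
    Continuous (trans g) := by
  rw [trans_eq_conv]
  exact hc.continuous_convolution_right _ locInt_ker hg

lemma integrable_ker_mul {g : ℂ → ℂ} (hg : Continuous g) (hc : HasCompactSupport g) (z : ℂ) :
    Integrable (fun t => ker t * g (z - t)) volume := by
  have := hc.convolutionExists_right (ContinuousLinearMap.mul ℝ ℂ) locInt_ker hg z
  simpa [ConvolutionExistsAt] using this

lemma continuous_norm_trans {g : ℂ → ℂ} (hg : Continuous g) (hc : HasCompactSupport g) :
    Continuous (fun z => ∫ t : ℂ, ‖ker t * g (z - t)‖) := by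
  have h := (hc.norm).continuous_convolution_right (ContinuousLinearMap.mul ℝ ℝ)
    locInt_norm_ker hg.norm
  convert h using 1
  ext z
  simp [convolution_def]

lemma circleMap_sub_circle (z s : ℂ) (r θ : ℝ) :
    circleMap z r θ - circleMap s r θ = z - s := by
  simp [circleMap]

lemma circle_avg_inv_out {s : ℂ} {r : ℝ} (hr : 0 < r) (h : r < ‖s‖) :
    Real.circleAverage (fun z : ℂ => z⁻¹) s r = s⁻¹ := by
  apply DiffContOnCl.circleAverage
  rw [abs_of_pos hr]
  have hne : ∀ z ∈ closedBall s r, z ≠ 0 := by
    intro z hz h0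
    subst h0
    rw [mem_closedBall, dist_comm, dist_zero_right] at hz
    linarith
  apply DifferentiableOn.diffContOnCl
  intro z hz
  have hz' : z ∈ closedBall s r := closure_ball_subset_closedBall hz
  exact (differentiableAt_inv (hne z hz')).differentiableWithinAt

lemma circle_avg_inv_in {s : ℂ} {r : ℝ} (hr : 0 < r) (h : ‖s‖ < r) :
    Real.circleAverage (fun z : ℂ => z⁻¹) s r = 0 := by
  rw [Real.circleAverage_eq_circleAverage_zero_one, ← Real.circleAverage_zero_one_congr_inv]
  have hne : ∀ u : ℂ, u ∈ closedBall (0 : ℂ) 1 → (r : ℂ) + s * u ≠ 0 := by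
    intro u hu h0
    have h1 : (r : ℂ) = - (s * u) := by linear_combination h0
    have h2 : r = ‖s‖ * ‖u‖ := by
      have := congrArg norm h1
      simpa [abs_of_pos hr] using this
    have hu' : ‖u‖ ≤ 1 := by simpa using hu
    have : ‖s‖ * ‖u‖ ≤ ‖s‖ * 1 := by gcongr
    linarith
  have key : Real.circleAverage (fun u : ℂ => u / ((r : ℂ) + s * u)) 0 1 = 0 := by
    have := DiffContOnCl.circleAverage (f := fun u : ℂ => u / ((r : ℂ) + s * u)) (c := 0) (R := 1)
      (by
        rw [abs_one]
        apply DifferentiableOn.diffContOnCl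
        intro u hu
        have hu' : u ∈ closedBall (0 : ℂ) 1 := closure_ball_subset_closedBall hu
        apply DifferentiableAt.differentiableWithinAt
        have h1 : DifferentiableAt ℂ (fun u : ℂ => u) u := differentiableAt_id
        have h2 : DifferentiableAt ℂ (fun u : ℂ => (r : ℂ) + s * u) u := by fun_prop
        exact h1.div h2 (hne u hu'))
    rw [this]; simp
  refine Eq.trans ?_ key
  apply Real.circleAverage_congr_sphere
  intro u hu
  have hu1 : ‖u‖ = 1 := by simpa using hu
  have hu0 : u ≠ 0 := by
    intro h0; simp [h0] at hu1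
  have h3 := hne u (by simp [hu1])
  have h4 : (r : ℂ) * u⁻¹ + s ≠ 0 := by
    intro h5
    apply h3
    field_simp at h5
    linear_combination h5
  simp only
  rw [eq_div_iff h3, inv_mul_eq_iff_eq_mul₀ h4]
  field_simp

lemma circleIntegrable_of_continuousOn {f : ℂ → ℂ} {s : ℂ} {r : ℝ}
    (hf : ContinuousOn f (sphere s |r|)) : CircleIntegrable f s r :=
  hf.circleIntegrable'

lemma circle_avg_ker_out {s : ℂ} {r : ℝ} (hr : 0 < r) (h : r < ‖s‖) :
    Real.circleAverage ker s r = ker s := by
  have hci : CircleIntegrable (fun z : ℂ => z⁻¹) s r := by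
    apply ContinuousOn.circleIntegrable'
    intro z hz
    apply ContinuousAt.continuousWithinAt
    apply continuousAt_inv₀
    intro h0
    subst h0
    rw [mem_sphere, dist_comm, dist_zero_right, abs_of_pos hr] at hz
    linarith
  have := ContinuousLinearMap.circleAverage_comp_comm (Complex.conjCLE : ℂ →L[ℝ] ℂ) hci
  rw [circle_avg_inv_out hr h] at this
  have h2 : ker = (Complex.conjCLE : ℂ →L[ℝ] ℂ) ∘ (fun z : ℂ => z⁻¹) := by
    ext z; simp [ker]
  rw [h2, this]
  simp

lemma circle_avg_ker_in {s : ℂ} {r : ℝ} (hr : 0 < r) (h : ‖s‖ < r) :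
    Real.circleAverage ker s r = 0 := by
  have hci : CircleIntegrable (fun z : ℂ => z⁻¹) s r := by
    apply ContinuousOn.circleIntegrable'
    intro z hz
    apply ContinuousAt.continuousWithinAt
    apply continuousAt_inv₀
    intro h0
    subst h0
    rw [mem_sphere, dist_comm, dist_zero_right, abs_of_pos hr] at hz
    linarith
  have := ContinuousLinearMap.circleAverage_comp_comm (Complex.conjCLE : ℂ →L[ℝ] ℂ) hci
  rw [circle_avg_inv_in hr h] at this
  have h2 : ker = (Complex.conjCLE : ℂ →L[ℝ] ℂ) ∘ (fun z : ℂ => z⁻¹) := by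
    ext z; simp [ker]
  rw [h2, this]
  simp

lemma swap_integrable {g : ℂ → ℂ} (hg : Continuous g) (hc : HasCompactSupport g) (z : ℂ) (r : ℝ) :
    Integrable (Function.uncurry (fun (θ : ℝ) (s : ℂ) => ker (circleMap s r θ) * g (z - s)))
      ((volume.restrict (Set.uIoc 0 (2 * Real.pi))).prod volume) := by
  have hshift : ∀ (θ : ℝ) (s : ℂ), ker (circleMap s r θ) * g (z - s)
      = (fun t => ker t * g (circleMap z r θ - t)) (s + circleMap 0 r θ) := by
    intro θ s
    simp only
    congr 2
    · simp [circleMap]
    · simp [circleMap]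
  rw [integrable_prod_iff]
  · constructor
    · filter_upwards with θ
      simp only [Function.uncurry]
      simp_rw [hshift θ]
      exact (integrable_ker_mul hg hc (circleMap z r θ)).comp_add_right (circleMap 0 r θ)
    · have : (fun θ : ℝ => ∫ s : ℂ, ‖Function.uncurry (fun (θ : ℝ) (s : ℂ) =>
          ker (circleMap s r θ) * g (z - s)) (θ, s)‖) =
          fun θ : ℝ => (fun w => ∫ t : ℂ, ‖ker t * g (w - t)‖) (circleMap z r θ) := by
        ext θ
        simp only [Function.uncurry]
        simp_rw [hshift θ]
        exact integral_add_right_eq_self (fun t => ‖ker t * g (circleMap z r θ - t)‖)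
          (circleMap 0 r θ)
      rw [this]
      have hcont : Continuous (fun θ : ℝ =>
          (fun w => ∫ t : ℂ, ‖ker t * g (w - t)‖) (circleMap z r θ)) :=
        (continuous_norm_trans hg hc).comp (continuous_circleMap z r)
      have := hcont.intervalIntegrable (μ := volume) 0 (2 * Real.pi)
      rw [intervalIntegrable_iff] at this
      exact this
  · apply Measurable.aestronglyMeasurable
    apply Measurable.mul
    · apply measurable_ker.comp
      apply Continuous.measurable
      unfold circleMap
      fun_prop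
    · apply Continuous.measurable
      fun_prop

lemma circleAverage_trans {g : ℂ → ℂ} (hg : Continuous g) (hc : HasCompactSupport g)
    (z : ℂ) (r : ℝ) :
    Real.circleAverage (trans g) z r = ∫ s : ℂ, Real.circleAverage ker s r * g (z - s) := by
  unfold Real.circleAverage
  have h1 : ∀ θ : ℝ, trans g (circleMap z r θ) = ∫ s : ℂ, ker (circleMap s r θ) * g (z - s) := by
    intro θ
    unfold trans
    rw [← integral_add_right_eq_self _ (circleMap 0 r θ)]
    congr 1
    ext s
    congr 2
    · simp [circleMap]
    · simp [circleMap]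
  simp_rw [h1]
  rw [intervalIntegral_integral_swap (swap_integrable hg hc z r)]
  rw [← integral_smul]
  congr 1
  ext s
  rw [intervalIntegral.integral_mul_const]
  simp [mul_assoc]

lemma circleAverage_trans_sub {g : ℂ → ℂ} (hg : Continuous g) (hc : HasCompactSupport g)
    (z : ℂ) {r : ℝ} (hr : 0 < r) :
    Real.circleAverage (trans g) z r - trans g z =
      - ∫ s : ℂ, (ball (0 : ℂ) r).indicator (fun s => ker s * g (z - s)) s := by
  have hint := integrable_ker_mul hg hc z
  have h1 : (fun s : ℂ => Real.circleAverage ker s r * g (z - s)) =ᵐ[volume]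
      fun s => ker s * g (z - s) - (ball (0 : ℂ) r).indicator (fun s => ker s * g (z - s)) s := by
    have h0 : ∀ᵐ s : ℂ ∂volume, s ∉ sphere (0 : ℂ) r := by
      have : (volume : Measure ℂ) (sphere (0 : ℂ) r) = 0 := Measure.addHaar_sphere _ _ _
      exact measure_eq_zero_iff_ae_notMem.mp this
    filter_upwards [h0] with s hs
    rcases lt_trichotomy ‖s‖ r with h | h | h
    · rw [circle_avg_ker_in hr h, indicator_of_mem (by simpa using h)]
      simp
    · exact absurd (by simpa using h) hs
    · rw [circle_avg_ker_out hr h, indicator_of_notMem (by simpa using h.le)]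
      simp
  rw [circleAverage_trans hg hc, integral_congr_ae h1, integral_sub hint
    (hint.indicator measurableSet_ball)]
  unfold trans
  ring

end Pool.Agent.Morera
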