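import Mathlib
import Pool.Agent.Morera.Kernel

open MeasureTheory Metric Set Filter Topology Complex

namespace Pool.Agent.Morera

/-- angular integral -/
noncomputable def jj (g : ℂ → ℂ) (z : ℂ) (ρ : ℝ) : ℂ :=
  ∫ θ in (0:ℝ)..(2 * Real.pi), Complex.exp (θ * I) * g (circleMap z ρ θ)

lemma circleIntegral_eq_jj (g : ℂ → ℂ) (z : ℂ) (ρ : ℝ) :
    (∮ ζ in C(z, ρ), g ζ) = I * ρ * jj g z ρ := by
  unfold circleIntegral jj
  rw [← intervalIntegral.integral_const_mul]
  congr 1
  ext θ
  simp only [deriv_circleMap, smul_eq_mul, circleMap, zero_add]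
  ring

lemma continuous_jj {g : ℂ → ℂ} (hg : Continuous g) (z : ℂ) : Continuous (jj g z) := by
  unfold jj
  apply intervalIntegral.continuous_parametric_intervalIntegral_of_continuous'
  unfold circleMap
  fun_prop

lemma jj_shift (g : ℂ → ℂ) (z : ℂ) (ρ : ℝ) :
    (∫ θ in (-Real.pi)..Real.pi, Complex.exp (θ * I) * g (z - ρ * Complex.exp (θ * I)))
      = - jj g z ρ := by
  have h := intervalIntegral.integral_comp_sub_right (a := 0) (b := 2 * Real.pi)
    (fun θ : ℝ => Complex.exp (θ * I) * g (z - ρ * Complex.exp (θ * I))) Real.pi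
  have e1 : (0 : ℝ) - Real.pi = -Real.pi := by ring
  have e2 : 2 * Real.pi - Real.pi = Real.pi := by ring
  rw [e1, e2] at h
  rw [← h]
  unfold jj
  rw [← intervalIntegral.integral_neg]
  congr 1
  ext θ
  have : Complex.exp (((θ - Real.pi : ℝ) : ℂ) * I) = - Complex.exp (θ * I) := by
    push_cast
    rw [sub_mul, Complex.exp_sub, Complex.exp_pi_mul_I]
    ring
  rw [this]
  simp [circleMap]

lemma polar_integral {g : ℂ → ℂ} (hg : Continuous g) (z : ℂ) {r : ℝ} (hr : 0 < r) :
    ∫ s : ℂ, (ball (0 : ℂ) r).indicator (fun s => ker s * g (z - s)) s =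
      - ∫ ρ in (0:ℝ)..r, jj g z ρ := by
  rw [← Complex.integral_comp_polarCoord_symm]
  set H : ℝ × ℝ → ℂ := fun p => Complex.exp (p.2 * I) * g (z - p.1 * Complex.exp (p.2 * I)) with hH
  have hHc : Continuous H := by
    rw [hH]; fun_prop
  have h1 : ∀ p ∈ polarCoord.target, p.1 • ((ball (0 : ℂ) r).indicator
      (fun s => ker s * g (z - s)) (Complex.polarCoord.symm p)) =
      ((Ioo 0 r) ×ˢ (Ioo (-Real.pi) Real.pi)).indicator H p := by
    rintro ⟨ρ, θ⟩ hp
    rw [polarCoord_target] at hp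
    obtain ⟨hρ, hθ⟩ := hp
    simp only [mem_Ioi] at hρ
    simp only [] at hθ
    have hsymm : (Complex.polarCoord.symm (ρ, θ) : ℂ) = ρ * Complex.exp (θ * I) := by
      rw [Complex.polarCoord_symm_apply, Complex.exp_mul_I]
      simp
    rw [hsymm]
    by_cases hlt : ρ < r
    · rw [indicator_of_mem, indicator_of_mem]
      · simp only [hH, ker, map_mul, Complex.conj_ofReal, ← Complex.exp_conj, Complex.conj_I]
        rw [mul_neg, Complex.exp_neg, mul_inv, inv_inv]
        have : (ρ : ℂ) ≠ 0 := by exact_mod_cast hρ.ne'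
        rw [Complex.real_smul]
        field_simp
      · exact ⟨⟨hρ, hlt⟩, hθ⟩
      · simp [abs_of_pos hρ, hlt, Complex.norm_exp_ofReal_mul_I]
    · rw [indicator_of_notMem, indicator_of_notMem]
      · simp
      · intro hh
        exact hlt hh.1.2
      · simp [abs_of_pos hρ, not_lt.mp hlt, Complex.norm_exp_ofReal_mul_I]
  rw [setIntegral_congr_fun polarCoord.open_target.measurableSet h1]
  rw [setIntegral_indicator (measurableSet_Ioo.prod measurableSet_Ioo)]
  have h2 : polarCoord.target ∩ (Ioo 0 r) ×ˢ (Ioo (-Real.pi) Real.pi) =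
      (Ioo 0 r) ×ˢ (Ioo (-Real.pi) Real.pi) := by
    apply inter_eq_self_of_subset_right
    rw [polarCoord_target]
    exact prod_mono (fun x hx => hx.1) subset_rfl
  rw [h2]
  have hint : IntegrableOn H ((Ioo 0 r) ×ˢ (Ioo (-Real.pi) Real.pi)) (volume.prod volume) := by
    have hK : IsCompact ((Icc 0 r) ×ˢ (Icc (-Real.pi) Real.pi)) := isCompact_Icc.prod isCompact_Icc
    exact (hHc.continuousOn.integrableOn_compact hK).mono_set
      (prod_mono Ioo_subset_Icc_self Ioo_subset_Icc_self)
  rw [Measure.volume_eq_prod, setIntegral_prod _ hint]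
  rw [← integral_Ioc_eq_integral_Ioo, ← intervalIntegral.integral_of_le hr.le,
    ← intervalIntegral.integral_neg]
  congr 1
  ext ρ
  rw [← integral_Ioc_eq_integral_Ioo, ← intervalIntegral.integral_of_le (by linarith [Real.pi_pos]),
    ← jj_shift]

lemma circleAverage_trans_eq {g : ℂ → ℂ} (hg : Continuous g) (hc : HasCompactSupport g)
    (z : ℂ) {r : ℝ} (hr : 0 < r) :
    Real.circleAverage (trans g) z r - trans g z = ∫ ρ in (0:ℝ)..r, jj g z ρ := by
  rw [circleAverage_trans_sub hg hc z hr, polar_integral hg z hr, neg_neg]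

end Pool.Agent.Morera
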