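import Mathlib
import Pool.Agent.Morera.Polar
import Pool.Agent.Morera.BP

open MeasureTheory Metric Set Filter Topology Complex

namespace Pool.Agent.Morera

lemma integral_jj_eq_zero {g : ℂ → ℂ} (hg : Continuous g) (hc : HasCompactSupport g) {U : Set ℂ}
    (h : ∀ z ∈ U, Tendsto (fun r : ℝ => jj g z r / r) (𝓝[>] 0) (𝓝 0))
    {z₀ : ℂ} {r : ℝ} (hr : 0 < r) (hsub : closedBall z₀ r ⊆ U) :
    ∫ ρ in (0:ℝ)..r, jj g z₀ ρ = 0 := by
  have hF := continuous_trans hg hc
  have hlim : ∀ z ∈ U, Tendsto (fun r : ℝ => (∫ ρ in (0:ℝ)..r, jj g z ρ) / (r : ℂ) ^ 2)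
      (𝓝[>] 0) (𝓝 0) := by
    intro z hz
    rw [Metric.tendsto_nhds]
    intro ε hε
    have h1 := (Metric.tendsto_nhds.mp (h z hz)) (ε / 2) (by linarith)
    rw [eventually_nhdsWithin_iff] at h1 ⊢
    rw [Metric.eventually_nhds_iff] at h1 ⊢
    obtain ⟨δ, hδ, h2⟩ := h1
    refine ⟨δ, hδ, fun s hs hs0 => ?_⟩
    have hs0' : 0 < s := hs0
    have hsδ : s < δ := by
      rw [Real.dist_eq, sub_zero, abs_of_pos hs0'] at hs; exact hs
    have h3 : ‖∫ ρ in (0:ℝ)..s, jj g z ρ‖ ≤ (ε / 2 * s) * |s - 0| := by
      apply intervalIntegral.norm_integral_le_of_norm_le_const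
      intro ρ hρ
      rw [uIoc_of_le hs0'.le] at hρ
      have h4 := h2 (y := ρ) (by rw [Real.dist_eq, sub_zero, abs_of_pos hρ.1]; linarith [hρ.2]) hρ.1
      rw [dist_zero_right, norm_div, div_lt_iff₀ (by simpa using hρ.1.ne')] at h4
      rw [Complex.norm_real, Real.norm_of_nonneg hρ.1.le] at h4
      have : ε / 2 * ρ ≤ ε / 2 * s := by
        have := hρ.2
        gcongr
      linarith
    rw [dist_zero_right, norm_div, norm_pow, Complex.norm_real, Real.norm_of_nonneg hs0'.le,
      div_lt_iff₀ (by positivity)]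
    rw [sub_zero, abs_of_pos hs0'] at h3
    nlinarith [mul_pos hε (pow_pos hs0' 2)]
  have hcomp : ∀ (L : ℂ →L[ℝ] ℝ) (z : ℂ) (s : ℝ), 0 < s →
      Real.circleAverage (L ∘ trans g) z s - (L ∘ trans g) z = L (∫ ρ in (0:ℝ)..s, jj g z ρ) := by
    intro L z s hs
    rw [← circleAverage_trans_eq hg hc z hs, map_sub,
      ContinuousLinearMap.circleAverage_comp_comm L hF.continuousOn.circleIntegrable']
    rfl
  have hkey : ∀ (L : ℂ →L[ℝ] ℝ), L (∫ ρ in (0:ℝ)..r, jj g z₀ ρ) = 0 := by
    intro L
    rw [← hcomp L z₀ r hr, sub_eq_zero]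
    apply blaschke_privalov (U := U) (L.continuous.comp hF) _ hr hsub
    intro z hz
    have h1 : Tendsto (fun r : ℝ => L ((∫ ρ in (0:ℝ)..r, jj g z ρ) / (r : ℂ) ^ 2))
        (𝓝[>] 0) (𝓝 0) := by
      have := (L.continuous.tendsto 0).comp (hlim z hz)
      simpa [Function.comp_def] using this
    refine h1.congr' ?_
    filter_upwards [self_mem_nhdsWithin] with s hs
    rw [hcomp L z s hs]
    have e : (∫ ρ in (0:ℝ)..s, jj g z ρ) / (s : ℂ) ^ 2 =
        ((s ^ 2)⁻¹ : ℝ) • (∫ ρ in (0:ℝ)..s, jj g z ρ) := by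
      rw [Complex.real_smul]; push_cast; ring
    rw [e, map_smul, smul_eq_mul]
    ring
  have hre := hkey Complex.reCLM
  have him := hkey Complex.imCLM
  apply Complex.ext
  · simpa using hre
  · simpa using him

lemma jj_eq_zero {g : ℂ → ℂ} (hg : Continuous g) (hc : HasCompactSupport g) {U : Set ℂ}
    (hU : IsOpen U)
    (h : ∀ z ∈ U, Tendsto (fun r : ℝ => jj g z r / r) (𝓝[>] 0) (𝓝 0))
    {z₀ : ℂ} {r : ℝ} (hr : 0 < r) (hsub : closedBall z₀ r ⊆ U) :
    jj g z₀ r = 0 := by
  have hev : ∀ᶠ s in 𝓝 r, ∫ ρ in (0:ℝ)..s, jj g z₀ ρ = 0 := by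
    obtain ⟨δ, hδ, hδU⟩ := (isCompact_closedBall z₀ r).exists_cthickening_subset_open hU hsub
    have h1 : closedBall z₀ (r + δ) ⊆ U := by
      rw [cthickening_closedBall hδ.le hr.le] at hδU
      rwa [add_comm]
    filter_upwards [lt_mem_nhds hr, gt_mem_nhds (show r < r + δ by linarith)] with s hs1 hs2
    exact integral_jj_eq_zero hg hc h hs1 ((closedBall_subset_closedBall hs2.le).trans h1)
  have hd : HasDerivAt (fun s => ∫ ρ in (0:ℝ)..s, jj g z₀ ρ) (jj g z₀ r) r :=
    (continuous_jj hg z₀).integral_hasStrictDerivAt 0 r |>.hasDerivAt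
  have hd0 : HasDerivAt (fun s => ∫ ρ in (0:ℝ)..s, jj g z₀ ρ) 0 r :=
    (hasDerivAt_const r (0:ℂ)).congr_of_eventuallyEq hev
  exact hd.unique hd0

lemma jj_entire {P : ℂ → ℂ} (hP : Differentiable ℂ P) (z : ℂ) {r : ℝ} (hr : 0 < r) :
    jj P z r = 0 := by
  have h1 : (∮ ζ in C(z, r), P ζ) = 0 :=
    (hP.diffContOnCl).circleIntegral_eq_zero hr.le
  rw [circleIntegral_eq_jj] at h1
  have h2 : I * (r : ℂ) ≠ 0 := by
    apply mul_ne_zero I_ne_zero; exact_mod_cast hr.ne'
  exact (mul_eq_zero.mp h1).resolve_left h2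

/-- real differentiability plus vanishing small circle integrals gives complex differentiability -/
lemma differentiableAt_of_jj {h : ℂ → ℂ} {z : ℂ} (hh : DifferentiableAt ℝ h z)
    (hcont : Continuous h)
    (hz : ∀ᶠ r : ℝ in 𝓝[>] 0, jj h z r = 0) : DifferentiableAt ℂ h z := by
  rw [differentiableAt_complex_iff_differentiableAt_real]
  refine ⟨hh, ?_⟩
  set D := fderiv ℝ h z with hD
  set a : ℂ := (D 1 - I * D I) / 2 with ha
  set b : ℂ := (D 1 + I * D I) / 2 with hb
  have hDw : ∀ w : ℂ, D w = a * w + b * (starRingEnd ℂ) w := by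
    intro w
    have e1 : w = w.re • (1 : ℂ) + w.im • I := by
      simp
    have e2 : D w = w.re • D 1 + w.im • D I := by
      conv_lhs => rw [e1]
      rw [map_add, map_smul, map_smul]
    rw [e2, ha, hb]
    have e3 : (w.re : ℂ) = (w + (starRingEnd ℂ) w) / 2 := by
      rw [Complex.add_conj]; push_cast; ring
    have e4 : (w.im : ℂ) = (w - (starRingEnd ℂ) w) / (2 * I) := by
      rw [Complex.sub_conj]; push_cast
      field_simp
    rw [Complex.real_smul, Complex.real_smul, e3, e4]
    have hI : I * I = -1 := I_mul_I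
    field_simp
    linear_combination (w * D I - (starRingEnd ℂ) w * D I) * hI
  have hb0 : b = 0 := by
    by_contra hne
    have hbpos : 0 < ‖b‖ := norm_pos_iff.mpr hne
    have hfd := hh.hasFDerivAt
    rw [hasFDerivAt_iff_isLittleO_nhds_zero] at hfd
    have hlo := (Asymptotics.isLittleO_iff.mp hfd) (c := ‖b‖ / 2) (by linarith)
    rw [Metric.eventually_nhds_iff] at hlo
    obtain ⟨δ, hδ, hlo⟩ := hlo
    have hsmall : ∀ᶠ r : ℝ in 𝓝[>] 0, r < δ := nhdsWithin_le_nhds (gt_mem_nhds hδ)
    obtain ⟨r, hr0, hrδ, hrpos⟩ := (hz.and (hsmall.and self_mem_nhdsWithin)).exists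
    have hrpos' : 0 < r := hrpos
    -- decompose
    set P : ℂ → ℂ := fun ζ => h z + a * (ζ - z) with hP
    have hPd : Differentiable ℂ P := by rw [hP]; fun_prop
    have hPj := jj_entire hPd z hrpos'
    have hconj : jj (fun ζ => b * (starRingEnd ℂ) (ζ - z)) z r = 2 * Real.pi * b * r := by
      unfold jj
      have : ∀ θ : ℝ, Complex.exp (θ * I) * (b * (starRingEnd ℂ) (circleMap z r θ - z)) = b * r := by
        intro θ
        have e : circleMap z r θ - z = r * Complex.exp (θ * I) := by simp [circleMap]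
        rw [e, map_mul, Complex.conj_ofReal, ← Complex.exp_conj, map_mul, Complex.conj_ofReal,
          Complex.conj_I, mul_neg, Complex.exp_neg]
        have := Complex.exp_ne_zero (θ * I)
        field_simp
      simp_rw [this]
      rw [intervalIntegral.integral_const]
      simp
      ring
    have hPc : Continuous P := hPd.continuous
    have hsum : jj (fun ζ => h ζ - P ζ - b * (starRingEnd ℂ) (ζ - z)) z r =
        jj h z r - jj P z r - jj (fun ζ => b * (starRingEnd ℂ) (ζ - z)) z r := by
      unfold jj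
      have hcm : Continuous (fun θ : ℝ => circleMap z r θ) := continuous_circleMap z r
      rw [← intervalIntegral.integral_sub, ← intervalIntegral.integral_sub]
      · congr 1
        ext θ
        ring
      · apply Continuous.intervalIntegrable
        fun_prop
      · apply Continuous.intervalIntegrable
        fun_prop
      · apply Continuous.intervalIntegrable
        fun_prop
      · apply Continuous.intervalIntegrable
        fun_prop
    have hbound : ‖jj (fun ζ => h ζ - P ζ - b * (starRingEnd ℂ) (ζ - z)) z r‖ ≤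
        (‖b‖ / 2 * r) * |2 * Real.pi - 0| := by
      unfold jj
      apply intervalIntegral.norm_integral_le_of_norm_le_const
      intro θ _
      have e : circleMap z r θ - z = r * Complex.exp (θ * I) := by simp [circleMap]
      have e' : circleMap z r θ = z + (circleMap z r θ - z) := by ring
      have hn : ‖circleMap z r θ - z‖ = r := by
        rw [e, norm_mul, Complex.norm_exp_ofReal_mul_I, Complex.norm_real,
          Real.norm_of_nonneg hrpos'.le, mul_one]
      have h5 := hlo (y := circleMap z r θ - z) (by rw [dist_zero_right, hn]; exact hrδ)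
      rw [← e', hn, hDw] at h5
      rw [norm_mul, Complex.norm_exp_ofReal_mul_I, one_mul]
      have e6 : h (circleMap z r θ) - P (circleMap z r θ) -
          b * (starRingEnd ℂ) (circleMap z r θ - z) =
          h (circleMap z r θ) - h z - (a * (circleMap z r θ - z) +
            b * (starRingEnd ℂ) (circleMap z r θ - z)) := by
        simp only [hP]; ring
      show ‖h (circleMap z r θ) - P (circleMap z r θ) -
          b * (starRingEnd ℂ) (circleMap z r θ - z)‖ ≤ ‖b‖ / 2 * r
      rw [e6]
      exact h5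
    rw [hsum, hr0, hPj, hconj] at hbound
    rw [zero_sub, neg_zero, zero_sub, norm_neg, norm_mul, norm_mul, norm_mul, Complex.norm_real,
      Complex.norm_real, Real.norm_of_nonneg hrpos'.le, Real.norm_of_nonneg Real.pi_pos.le,
      sub_zero, abs_of_pos (by positivity), Complex.norm_ofNat] at hbound
    have : 0 < Real.pi * ‖b‖ * r := by positivity
    nlinarith
  have h2 : D 1 + I * D I = 0 := by
    have := hb0
    rw [hb] at this
    simpa using this
  rw [smul_eq_mul]
  have hI : I * I = -1 := I_mul_I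
  linear_combination (-I) * h2 + D I * hI

lemma jj_conv (φ : ContDiffBump (0 : ℂ)) {g : ℂ → ℂ} (hg : Continuous g)
    (hc : HasCompactSupport g) (z : ℂ) (r : ℝ) :
    jj (convolution (φ.normed volume) g (ContinuousLinearMap.lsmul ℝ ℝ) volume) z r =
      ∫ t : ℂ, φ.normed volume t • jj g (z - t) r := by
  unfold jj
  have h1 : ∀ θ : ℝ, Complex.exp (θ * I) *
      convolution (φ.normed volume) g (ContinuousLinearMap.lsmul ℝ ℝ) volume (circleMap z r θ) =
      ∫ t : ℂ, φ.normed volume t • (Complex.exp (θ * I) * g (circleMap (z - t) r θ)) := by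
    intro θ
    rw [convolution_def, ← integral_const_mul]
    congr 1
    ext t
    have e : circleMap z r θ - t = circleMap (z - t) r θ := by simp [circleMap]; ring
    rw [e]
    simp only [ContinuousLinearMap.lsmul_apply, Complex.real_smul]
    ring
  simp_rw [h1]
  rw [intervalIntegral_integral_swap]
  · congr 1
    ext t
    rw [intervalIntegral.integral_smul]
  · obtain ⟨C, hC⟩ := hg.bounded_above_of_compact_support hc
    have : IsFiniteMeasure (volume.restrict (Set.uIoc 0 (2 * Real.pi))) := by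
      rw [Set.uIoc_of_le (by positivity)]
      infer_instance
    have hint : Integrable (fun p : ℝ × ℂ => φ.normed volume p.2)
        ((volume.restrict (Set.uIoc 0 (2 * Real.pi))).prod volume) := by
      exact (φ.integrable_normed).comp_snd _
    have hcont : Continuous (fun p : ℝ × ℂ =>
        Complex.exp (p.1 * I) * g (circleMap (z - p.2) r p.1)) := by
      unfold circleMap
      fun_prop
    have := hint.smul_bdd C hcont.aestronglyMeasurable (Eventually.of_forall (fun p => by
      rw [norm_mul, Complex.norm_exp_ofReal_mul_I, one_mul]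
      exact hC _))
    exact this

end Pool.Agent.Morera
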