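import Mathlib
import Pool.Agent.Morera.Final

open MeasureTheory Metric Set Filter Topology Complex

namespace Pool.Agent.Morera

lemma differentiableOn_of_jj {g : ℂ → ℂ} (hg : Continuous g) (hc : HasCompactSupport g)
    {U : Set ℂ} (hU : IsOpen U)
    (h : ∀ (z : ℂ) (r : ℝ), 0 < r → closedBall z r ⊆ U → jj g z r = 0) :
    DifferentiableOn ℂ g U := by
  intro z₀ hz₀
  obtain ⟨R, hR, hRU⟩ := Metric.isOpen_iff.mp hU z₀ hz₀
  set δ := R / 4 with hδ
  have hδpos : 0 < δ := by rw [hδ]; linarith
  -- uniform continuity
  have huc : UniformContinuous g := hc.uniformContinuous_of_continuous hg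
  -- the mollifications
  have key : ∀ n : ℕ, ∃ k : ℂ → ℂ, DifferentiableOn ℂ k (ball z₀ δ) ∧
      ∀ z, dist (k z) (g z) ≤ 1 / ((n : ℝ) + 1) := by
    intro n
    have hn : (0 : ℝ) < 1 / ((n : ℝ) + 1) := by positivity
    obtain ⟨η, hη, hη2⟩ := Metric.uniformContinuous_iff.mp huc _ hn
    set ρ := min η δ with hρ
    have hρpos : 0 < ρ := lt_min hη hδpos
    let φ : ContDiffBump (0 : ℂ) := ⟨ρ / 2, ρ, by linarith, by linarith⟩
    refine ⟨convolution (φ.normed volume) g (ContinuousLinearMap.lsmul ℝ ℝ) volume, ?_, ?_⟩
    · intro z hz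
      apply DifferentiableAt.differentiableWithinAt
      have hsm : ContDiff ℝ ((1 : ℕ∞) : WithTop ℕ∞)
          (convolution (φ.normed volume) g (ContinuousLinearMap.lsmul ℝ ℝ) volume) := by
        apply HasCompactSupport.contDiff_convolution_left
        · exact φ.hasCompactSupport_normed
        · exact φ.contDiff_normed
        · exact hg.locallyIntegrable
      apply differentiableAt_of_jj
      · exact (hsm.differentiable (by simp)).differentiableAt
      · exact hsm.continuous
      · have hsmall : ∀ᶠ r : ℝ in 𝓝[>] 0, r < δ := nhdsWithin_le_nhds (gt_mem_nhds hδpos)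
        filter_upwards [hsmall, self_mem_nhdsWithin] with r hr1 hr2
        rw [jj_conv φ hg hc z r]
        apply integral_eq_zero_of_ae
        refine Eventually.of_forall (fun t => ?_)
        by_cases ht : t ∈ Function.support (φ.normed volume)
        · rw [φ.support_normed_eq] at ht
          have ht' : ‖t‖ < ρ := by simpa using ht
          have hρδ : ρ ≤ δ := min_le_right _ _
          have hzz : dist z z₀ < δ := hz
          have : jj g (z - t) r = 0 := by
            apply h _ _ hr2
            refine Subset.trans ?_ hRU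
            apply closedBall_subset_ball'
            have h1 : dist (z - t) z₀ ≤ dist z z₀ + ‖t‖ := by
              rw [dist_eq_norm, dist_eq_norm]
              have : z - t - z₀ = (z - z₀) - t := by ring
              rw [this]
              exact norm_sub_le _ _
            have h2 : R = 4 * δ := by rw [hδ]; ring
            linarith
          simp [this]
        · rw [Function.notMem_support] at ht
          simp [ht]
    · intro z
      apply ContDiffBump.dist_normed_convolution_le hg.aestronglyMeasurable
      intro x hx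
      apply le_of_lt
      apply hη2
      exact lt_of_lt_of_le (mem_ball.mp hx) (min_le_left _ _)
  choose k hk1 hk2 using key
  have hlim : TendstoUniformlyOn k g atTop (ball z₀ δ) := by
    rw [Metric.tendstoUniformlyOn_iff]
    intro ε hε
    have := tendsto_one_div_add_atTop_nhds_zero_nat (𝕜 := ℝ)
    filter_upwards [this.eventually (gt_mem_nhds hε)] with n hn z _
    rw [dist_comm]
    exact lt_of_le_of_lt (hk2 n z) hn
  have hd := hlim.tendstoLocallyUniformlyOn.differentiableOn (Eventually.of_forall hk1) isOpen_ball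
  exact ((hd z₀ (mem_ball_self hδpos)).differentiableAt
    (ball_mem_nhds z₀ hδpos)).differentiableWithinAt

/-- A continuous function on an open set `D` whose integrals over the circles `|ζ - z| = r` are
`o(r ^ 2)` as `r → 0`, at every point `z` of `D`, is holomorphic in `D`. -/
theorem main (D : Set ℂ) (hD : IsOpen D) (f : ℂ → ℂ) (hf : ContinuousOn f D)
    (h : ∀ z ∈ D, Tendsto (fun r : ℝ => (∮ ζ in C(z, r), f ζ) / (r : ℂ) ^ 2) (𝓝[>] 0) (𝓝 0)) :
    DifferentiableOn ℂ f D := by
  intro z₀ hz₀
  obtain ⟨R, hR, hRD⟩ := Metric.isOpen_iff.mp hD z₀ hz₀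
  let χ : ContDiffBump z₀ := ⟨R / 4, R / 2, by linarith, by linarith⟩
  set g : ℂ → ℂ := fun ζ => χ ζ • f ζ with hgdef
  have htsupp : tsupport (fun ζ => χ ζ) = closedBall z₀ (R / 2) := χ.tsupport_eq
  have hcb : closedBall z₀ (R / 2) ⊆ D :=
    (closedBall_subset_ball (by linarith)).trans hRD
  have hgc : Continuous g := by
    rw [continuous_iff_continuousAt]
    intro x
    by_cases hx : x ∈ D
    · exact χ.continuous.continuousAt.smul (hf.continuousAt (hD.mem_nhds hx))
    · have hx' : x ∉ tsupport (fun ζ => χ ζ) := by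
        rw [htsupp]; exact fun hh => hx (hcb hh)
      have h0 : g =ᶠ[𝓝 x] fun _ => 0 := by
        have := notMem_tsupport_iff_eventuallyEq.mp hx'
        filter_upwards [this] with y hy
        simp only [hgdef]
        rw [hy]; simp
      exact (continuousAt_const).congr h0.symm
  have hgs : HasCompactSupport g := by
    have h0 : HasCompactSupport (fun ζ => χ ζ) := χ.hasCompactSupport
    exact h0.smul_right
  have hgf : ∀ ζ ∈ ball z₀ (R / 4), g ζ = f ζ := by
    intro ζ hζ
    have : χ ζ = 1 := χ.one_of_mem_closedBall (ball_subset_closedBall hζ)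
    simp [hgdef, this]
  have hU : IsOpen (ball z₀ (R / 4)) := isOpen_ball
  have hUD : ball z₀ (R / 4) ⊆ D := (ball_subset_ball (by linarith)).trans hRD
  have hlim : ∀ z ∈ ball z₀ (R / 4), Tendsto (fun r : ℝ => jj g z r / r) (𝓝[>] 0) (𝓝 0) := by
    intro z hz
    have h1 := (h z (hUD hz)).const_mul (I⁻¹)
    rw [mul_zero] at h1
    refine h1.congr' ?_
    have hd : 0 < R / 4 - dist z z₀ := by
      have := mem_ball.mp hz; linarith
    have hsmall : ∀ᶠ r : ℝ in 𝓝[>] 0, r < R / 4 - dist z z₀ := nhdsWithin_le_nhds (gt_mem_nhds hd)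
    filter_upwards [hsmall, self_mem_nhdsWithin] with r hr1 hr2
    have hr2' : 0 < r := hr2
    have e : (∮ ζ in C(z, r), f ζ) = ∮ ζ in C(z, r), g ζ := by
      apply circleIntegral.integral_congr hr2'.le
      intro ζ hζ
      rw [hgf]
      have := mem_sphere.mp hζ
      rw [mem_ball]
      linarith [dist_triangle ζ z z₀]
    rw [e, circleIntegral_eq_jj]
    have : (r : ℂ) ≠ 0 := by exact_mod_cast hr2'.ne'
    field_simp
  have hz : DifferentiableOn ℂ g (ball z₀ (R / 4)) := by
    apply differentiableOn_of_jj hgc hgs hU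
    intro z r hr hsub
    exact jj_eq_zero hgc hgs hU hlim hr hsub
  have hmem : ball z₀ (R / 4) ∈ 𝓝 z₀ := ball_mem_nhds z₀ (by linarith)
  have h1 : DifferentiableAt ℂ g z₀ := (hz z₀ (mem_ball_self (by linarith))).differentiableAt hmem
  have h2 : DifferentiableAt ℂ f z₀ := by
    apply h1.congr_of_eventuallyEq
    filter_upwards [hmem] with y hy
    exact (hgf y hy).symm
  exact h2.differentiableWithinAt

end Pool.Agent.Morera
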